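import Mathlib

set_option autoImplicit false

namespace Pool.Agent.Results.MP_759130_ag.Counter
open MvPolynomial Filter Topology

/-- Newton polytope -/
def newton {d : ℕ} (Q : MvPolynomial (Fin d) ℂ) : Set (Fin d → ℝ) :=
  convexHull ℝ ((fun m : Fin d →₀ ℕ => fun i => (m i : ℝ)) '' Q.support)

/-- logarithmic gradient -/
noncomputable def logGrad {d : ℕ} (Q : MvPolynomial (Fin d) ℂ) (z : Fin d → ℂ) : Fin d → ℂ :=
  fun i => z i * eval z (pderiv i Q)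

noncomputable def Q0 : MvPolynomial (Fin 3) ℂ := (X 0 - 1) ^ 2 + X 1 + X 2

lemma Q0_eq : Q0 = monomial (Finsupp.single 0 2) 1 + monomial (Finsupp.single 0 1) (-2) + monomial 0 1 +
    monomial (Finsupp.single 1 1) 1 + monomial (Finsupp.single 2 1) 1 := by
  apply MvPolynomial.funext
  intro x
  simp [Q0, eval_monomial]
  ring

lemma mem0 : (0 : Fin 3 → ℝ) ∈ newton Q0 :=
  subset_convexHull _ _ ⟨0, by
    simp [Q0_eq, coeff_monomial, Finsupp.single_eq_zero, eq_comm (a := (0 : Fin 3 →₀ ℕ))], by funext i; simp⟩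

lemma mem1 (i : Fin 3) : (Pi.single i 1 : Fin 3 → ℝ) ∈ newton Q0 :=
  subset_convexHull _ _ ⟨Finsupp.single i 1, by
    fin_cases i <;>
    simp [Q0_eq, coeff_monomial, Finsupp.single_eq_single_iff, Finsupp.single_eq_zero, coeff_one,
      eq_comm (a := (0 : Fin 3 →₀ ℕ))], by
    funext j; by_cases h : i = j <;> simp [h, Pi.single_apply, Finsupp.single_apply, eq_comm]⟩

lemma nonneg {a : Fin 3 → ℝ} (ha : a ∈ newton Q0) (i : Fin 3) : 0 ≤ a i := by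
  refine convexHull_min (𝕜 := ℝ) (t := {a : Fin 3 → ℝ | 0 ≤ a i}) ?_ ?_ ha
  · rintro _ ⟨m, -, rfl⟩; exact Nat.cast_nonneg (α := ℝ) _
  · intro x hx y hy s t hs ht _
    exact add_nonneg (mul_nonneg hs hx) (mul_nonneg ht hy)

noncomputable def l0 : (Fin 3 → ℝ) →L[ℝ] ℝ :=
  -((ContinuousLinearMap.proj 1 : (Fin 3 → ℝ) →L[ℝ] ℝ) + (ContinuousLinearMap.proj 2 : (Fin 3 → ℝ) →L[ℝ] ℝ))

lemma face {a : Fin 3 → ℝ} (ha : a ∈ newton Q0) :
    a ∈ l0.toExposed (newton Q0) ↔ a 1 = 0 ∧ a 2 = 0 := by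
  have h1 := nonneg ha 1
  have h2 := nonneg ha 2
  constructor
  · intro h
    have := h.2 0 mem0
    simp [l0] at this
    constructor <;> linarith
  · intro h
    refine ⟨ha, fun y hy => ?_⟩
    have h1 := nonneg hy 1
    have h2 := nonneg hy 2
    simp [l0, h.1, h.2]
    linarith

theorem result : ∃ (d : ℕ) (Q : MvPolynomial (Fin d) ℂ) (l : (Fin d → ℝ) →L[ℝ] ℝ)
    (x : ℕ → Fin d → ℂ) (r : Fin d → ℂ) (ξ : (Fin d → ℤ) → ℂ) (c c' : ℕ → ℂ),
    vectorSpan ℝ (newton Q) = ⊤ ∧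
    (∀ z : Fin d → ℂ, eval z Q = 0 → ∃ i, eval z (pderiv i Q) ≠ 0) ∧
    (∀ j, (∀ i, x j i ≠ 0) ∧ eval (x j) Q = 0 ∧ logGrad Q (x j) ≠ 0) ∧
    r ≠ 0 ∧ Tendsto (fun j => c j • logGrad Q (x j)) atTop (𝓝 r) ∧
    (l.toExposed (newton Q)).Nonempty ∧
    (∀ a : Fin d → ℤ, (fun i => (a i : ℝ)) ∈ newton Q →
      Tendsto (fun j => c' j * ∏ i, x j i ^ a i) atTop (𝓝 (ξ a)) ∧
      (ξ a ≠ 0 ↔ (fun i => (a i : ℝ)) ∈ l.toExposed (newton Q))) ∧
    r ∉ Submodule.span ℂ {v : Fin d → ℂ | ∃ a ∈ l.toExposed (newton Q),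
      ∃ b ∈ l.toExposed (newton Q), v = fun i => ((a i - b i : ℝ) : ℂ)} := by
  have hne : ∀ j : ℕ, (1 / ((j : ℂ) + 1)) ≠ 0 := fun j =>
    one_div_ne_zero (by exact_mod_cast Nat.succ_ne_zero j)
  have hg : ∀ s : ℂ, logGrad Q0 ![1, s, -s] = ![0, s, -s] := by
    intro s; funext i; fin_cases i <;> simp [logGrad, Q0, pderiv_X]
  have hlim : Tendsto (fun j : ℕ => 1 / ((j : ℂ) + 1)) atTop (𝓝 0) := tendsto_one_div_add_atTop_nhds_zero_nat
  refine ⟨3, Q0, l0, fun j => ![1, 1 / ((j : ℂ) + 1), -(1 / ((j : ℂ) + 1))], ![0, 1, -1],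
    fun a => if a 1 = 0 ∧ a 2 = 0 then 1 else 0, fun j => (j : ℂ) + 1, fun _ => 1, ?_,
    fun z _ => ⟨1, by simp [Q0, pderiv_X]⟩, fun j => ⟨fun i => ?_, by simp [Q0], fun h => ?_⟩,
    fun h => by simpa using congrFun h 1, ?_, ⟨0, (face mem0).2 ⟨rfl, rfl⟩⟩, fun a ha => ⟨?_, ?_⟩, fun h => ?_⟩
  · rw [eq_top_iff, ← (Pi.basisFun ℝ (Fin 3)).span_eq, Submodule.span_le]
    rintro _ ⟨i, rfl⟩
    simpa using vsub_mem_vectorSpan ℝ (mem1 i) mem0
  · fin_cases i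
    · simp
    · exact hne j
    · exact neg_ne_zero.2 (hne j)
  · rw [hg] at h
    exact hne j (congrFun h 1)
  · refine tendsto_const_nhds.congr fun j => ?_
    have : (j : ℂ) + 1 ≠ 0 := by exact_mod_cast Nat.succ_ne_zero j
    rw [hg]; funext i; fin_cases i <;> simp [this]
  · have h1 : 0 ≤ a 1 := by exact_mod_cast (show (0 : ℝ) ≤ (a 1 : ℝ) from nonneg ha 1)
    have h2 : 0 ≤ a 2 := by exact_mod_cast (show (0 : ℝ) ≤ (a 2 : ℝ) from nonneg ha 2)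
    obtain ⟨m, hm⟩ := Int.eq_ofNat_of_zero_le h1
    obtain ⟨n, hn⟩ := Int.eq_ofNat_of_zero_le h2
    simp only [Fin.prod_univ_three, Matrix.cons_val, hm, hn, one_zpow, one_mul, zpow_natCast]
    convert (hlim.pow m).mul (hlim.neg.pow n) using 2
    rcases m with _ | m <;> rcases n with _ | n <;> simp <;> omega
  · rw [face ha]
    simp
  · have : Submodule.span ℂ {v : Fin 3 → ℂ | ∃ a ∈ l0.toExposed (newton Q0),
        ∃ b ∈ l0.toExposed (newton Q0), v = fun i => ((a i - b i : ℝ) : ℂ)} ≤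
        LinearMap.ker (LinearMap.proj 1) := by
      rw [Submodule.span_le]
      rintro _ ⟨a, ha, b, hb, rfl⟩
      simp [((face ha.1).1 ha).1, ((face hb.1).1 hb).1]
    simpa using this h

end Pool.Agent.Results.MP_759130_ag.Counter
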